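import Mathlib

namespace Pool.Agent.H.MP_9f28a9_al

variable {A : Type} [Ring A]

/-- Injective hull of a simple module. -/
lemma exists_hull (L : Ideal A) (hL : L.IsMaximal) :
    ∃ (E : Type) (_ : AddCommGroup E) (_ : Module A E) (s : E), Module.Injective A E ∧ s ≠ 0 ∧
      (∀ r ∈ L, r • s = 0) ∧ ∀ x : E, x ≠ 0 → ∃ r : A, r • x = s := by
  obtain ⟨p⟩ := CategoryTheory.EnoughInjectives.presentation (ModuleCat.of A (A ⧸ L))
  have hQ : Module.Injective A p.J :=
    Module.injective_module_of_injective_object A p.J (inj := p.injective)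
  have hf : Function.Injective p.f.hom := (ModuleCat.mono_iff_injective p.f).1 p.mono
  let s : p.J := p.f.hom (Submodule.Quotient.mk 1)
  have hs : ∀ r : A, r • s = 0 ↔ r ∈ L := fun r => by
    rw [← map_smul, map_eq_zero_iff _ hf, ← Submodule.Quotient.mk_smul,
      Submodule.Quotient.mk_eq_zero, smul_eq_mul, mul_one]
  have hs0 : s ≠ 0 := fun h => hL.ne_top ((Ideal.eq_top_iff_one L).2 ((hs 1).1 (by simp [h])))
  obtain ⟨E, hE0, hE⟩ := zorn_le_nonempty₀
    {E : Submodule A p.J | ∀ x ∈ E, x ≠ 0 → ∃ r : A, r • x = s} (fun c hc hc' y hy =>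
      ⟨sSup c, fun x hx => by
        obtain ⟨E, hE, hx⟩ := (Submodule.mem_sSup_of_directed ⟨y, hy⟩ hc'.directedOn).1 hx
        exact hc hE x hx, fun z hz => le_sSup hz⟩) (Submodule.span A {s}) (by
      intro x hx hx0
      obtain ⟨a, rfl⟩ := Submodule.mem_span_singleton.1 hx
      obtain ⟨y, c, hc, h⟩ := hL.exists_inv (fun h => hx0 ((hs a).2 h))
      refine ⟨y, ?_⟩
      rw [smul_smul, eq_sub_of_add_eq h, sub_smul, one_smul, (hs c).2 hc, sub_zero])
  have hsE : s ∈ E := hE0 (Submodule.mem_span_singleton_self s)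
  obtain ⟨K, -, hK⟩ := zorn_le_nonempty₀ {K : Submodule A p.J | s ∉ K} (fun c hc hc' y hy =>
      ⟨sSup c, fun hx => by
        obtain ⟨E, hE, hx⟩ := (Submodule.mem_sSup_of_directed ⟨y, hy⟩ hc'.directedOn).1 hx
        exact hc hE hx, fun z hz => le_sSup hz⟩) ⊥ (by simpa using hs0)
  have h1 : ∀ y : p.J ⧸ K, y ≠ 0 → ∃ r : A, r • y = K.mkQ s := by
    intro y hy
    obtain ⟨y, rfl⟩ := K.mkQ_surjective y
    have h2 : s ∈ K ⊔ Submodule.span A {y} := by
      by_contra h
      have := hK.2 h le_sup_left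
      exact hy ((Submodule.Quotient.mk_eq_zero _).2
        (this (Submodule.mem_sup_right (Submodule.mem_span_singleton_self y))))
    obtain ⟨k, hk, z, hz, h⟩ := Submodule.mem_sup.1 h2
    obtain ⟨a, rfl⟩ := Submodule.mem_span_singleton.1 hz
    refine ⟨a, ?_⟩
    rw [← h, map_add, map_smul, show K.mkQ k = 0 from (Submodule.Quotient.mk_eq_zero _).2 hk,
      zero_add]
  have h2 : Function.Injective (K.mkQ ∘ₗ E.subtype) := by
    rw [injective_iff_map_eq_zero]
    intro x hx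
    by_contra h
    obtain ⟨r, hr⟩ := hE.1 x x.2 (fun h' => h (Subtype.ext h'))
    exact hK.1 (hr ▸ K.smul_mem r ((Submodule.Quotient.mk_eq_zero _).1 hx))
  obtain ⟨h, hh⟩ := hQ.out _ h2 E.subtype
  have h3 : h (K.mkQ s) = s := hh ⟨s, hsE⟩
  have h4 : LinearMap.range h ≤ E := hE.2 (by
    rintro _ ⟨y, rfl⟩ hy
    obtain ⟨r, hr⟩ := h1 y (by rintro rfl; simp at hy)
    exact ⟨r, by rw [← map_smul, hr, h3]⟩) (fun x hx => ⟨_, hh ⟨x, hx⟩⟩)
  refine ⟨E, inferInstance, inferInstance, ⟨s, hsE⟩, ⟨fun X Y _ _ _ _ f hf g => ?_⟩,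
    fun h => hs0 (congrArg Subtype.val h), fun r hr => Subtype.ext ((hs r).2 hr), fun x hx => ?_⟩
  · obtain ⟨k, hk⟩ := hQ.out f hf (E.subtype ∘ₗ g)
    refine ⟨LinearMap.codRestrict E (h ∘ₗ K.mkQ ∘ₗ k) (fun y => h4 ⟨_, rfl⟩), fun x =>
      Subtype.ext ?_⟩
    have := hh (g x)
    simpa [hk] using this
  · obtain ⟨r, hr⟩ := hE.1 x x.2 (fun h' => hx (Subtype.ext h'))
    exact ⟨r, Subtype.ext hr⟩

lemma row_idem (reg : ∀ a : A, ∃ x, a * x * a = a) {ι : Type} [DecidableEq ι] (b : ι → A)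
    (s : Finset ι) : ∃ c : ι → A, ∀ i ∈ s, (∑ k ∈ s, b k * c k) * b i = b i := by
  induction s using Finset.induction_on with
  | empty => exact ⟨0, by simp⟩
  | insert j s hj ih =>
    obtain ⟨c, hc⟩ := ih
    set ε := ∑ k ∈ s, b k * c k with hε
    obtain ⟨x, hx⟩ := reg ((1 - ε) * b j)
    refine ⟨fun k => if k = j then x * (1 - ε) else c k - c k * (b j * x * (1 - ε)), ?_⟩
    have h1 : (∑ k ∈ insert j s, b k * if k = j then x * (1 - ε)
        else c k - c k * (b j * x * (1 - ε))) = ε + (1 - ε) * b j * x * (1 - ε) := by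
      rw [Finset.sum_insert hj, if_pos rfl, Finset.sum_congr rfl
        (g := fun k => b k * c k - b k * c k * (b j * x * (1 - ε))) (fun k hk => by
          rw [if_neg (by rintro rfl; exact hj hk), mul_sub, ← mul_assoc]),
        Finset.sum_sub_distrib, ← Finset.sum_mul, ← hε]
      noncomm_ring
    intro i hi
    rw [h1]
    rcases Finset.mem_insert.1 hi with rfl | hi
    · rw [add_mul, mul_assoc _ (1 - ε), hx]
      noncomm_ring
    · rw [add_mul, mul_assoc _ (1 - ε), sub_mul 1 ε (b i), hc i hi]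
      simp

lemma solve (reg : ∀ a : A, ∃ x, a * x * a = a) {ι : Type} [Fintype ι] [DecidableEq ι] (m : ℕ)
    (H : Fin m → ι → A) : ∃ D : ι → ι → A, ∀ (M : Type) [AddCommGroup M] [Module A M] (v : ι → M),
      (∀ j, ∑ i, H j i • v i = 0) ↔ ∃ z : ι → M, ∀ i, v i = ∑ k, D i k • z k := by
  induction m with
  | zero =>
    refine ⟨fun i k => if i = k then 1 else 0, fun M _ _ v => ?_⟩
    simp only [IsEmpty.forall_iff, true_iff]
    exact ⟨v, fun i => by simp [ite_smul]⟩
  | succ m ih =>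
    obtain ⟨D, hD⟩ := ih (fun j => H j.succ)
    let h : ι → A := fun k => ∑ i, H 0 i * D i k
    obtain ⟨c, hc⟩ := row_idem reg h Finset.univ
    refine ⟨fun i l => D i l - (∑ k, D i k * c k) * h l, fun M _ _ v => ?_⟩
    have key : ∀ z : ι → M, ∑ i, H 0 i • ∑ k, D i k • z k = ∑ k, h k • z k := fun z => by
      simp only [h, Finset.smul_sum, Finset.sum_smul, smul_smul]
      exact Finset.sum_comm
    have key2 : ∀ (w : ι → M) i, ∑ l, (D i l - (∑ k, D i k * c k) * h l) • w l =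
        ∑ k, D i k • (w k - c k • ∑ l, h l • w l) := fun w i => by
      simp only [sub_smul, smul_sub, Finset.sum_sub_distrib, mul_smul, ← Finset.smul_sum]
      simp only [Finset.sum_smul, mul_smul]
    rw [Fin.forall_fin_succ, hD]
    constructor
    · rintro ⟨h0, z, hz⟩
      refine ⟨z, fun i => ?_⟩
      simp only [hz, key] at h0
      rw [key2, h0, hz]
      simp
    · rintro ⟨w, hw⟩
      simp only [key2] at hw
      refine ⟨?_, _, hw⟩
      simp only [hw]
      rw [key]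
      simp only [smul_sub, Finset.sum_sub_distrib, smul_smul, ← Finset.sum_smul]
      rw [Finset.smul_sum, sub_eq_zero]
      refine Finset.sum_congr rfl fun l _ => ?_
      rw [smul_smul, hc l (Finset.mem_univ l)]

/-- Over a regular ring every pp formula is defined by an idempotent. -/
lemma pp_idem (reg : ∀ a : A, ∃ x, a * x * a = a) (n m : ℕ) (a : Fin m → A)
    (b : Fin m → Fin n → A) : ∃ ε : A, ε * ε = ε ∧
      ∀ (M : Type) [AddCommGroup M] [Module A M] (x : M),
        (∃ y : Fin n → M, ∀ j, a j • x + ∑ i, b j i • y i = 0) ↔ ε • x = x := by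
  obtain ⟨D, hD⟩ := solve reg m (ι := Option (Fin n)) (fun j i => i.elim (a j) (b j))
  obtain ⟨c, hc⟩ := row_idem reg (D none) Finset.univ
  refine ⟨∑ k, D none k * c k, ?_, fun M _ _ x => ⟨?_, fun h => ?_⟩⟩
  · rw [Finset.mul_sum]
    exact Finset.sum_congr rfl fun k _ => by rw [← mul_assoc, hc k (Finset.mem_univ k)]
  · rintro ⟨y, hy⟩
    obtain ⟨z, hz⟩ := (hD M (fun i => i.elim x y)).1 (fun j => by
      simpa [Fintype.sum_option] using hy j)
    have := hz none
    simp only [Option.elim] at this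
    rw [this, Finset.smul_sum]
    exact Finset.sum_congr rfl fun k _ => by rw [smul_smul, hc k (Finset.mem_univ k)]
  · have := (hD M (fun i => ∑ k, D i k • c k • x)).2 ⟨_, fun _ => rfl⟩
    refine ⟨fun i => ∑ k, D (some i) k • c k • x, fun j => ?_⟩
    have h1 := this j
    rw [Fintype.sum_option] at h1
    simp only [Option.elim, smul_smul (D none _), ← Finset.sum_smul, h] at h1
    exact h1

/-- The ring theoretic data of the example. -/
structure Hyp (A : Type) [Ring A] (P : A → Prop) (e : A) : Prop where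
  reg : ∀ a : A, ∃ x, a * x * a = a
  idem : e * e = e
  he : ¬ P e
  he' : ¬ P (1 - e)
  comm : ∀ a, P (e * a - a * e) ∧ P (a * e - e * a)
  ex : ∀ F : Finset A, (∀ r ∈ F, P r) → ∃ (I : TwoSidedIdeal A) (g : A), (∀ r ∈ F, r ∈ I) ∧
    g ∉ I ∧ ∀ c, ¬ P c → ∃ u w, g = u * c * w

open MulOpposite in
lemma Hyp.op {P : A → Prop} {e : A} (h : Hyp A P e) : Hyp Aᵐᵒᵖ (fun a => P a.unop) (op e) := by
  classical
  refine ⟨fun a => ?_, ?_, h.he, h.he', fun a => (h.comm a.unop).symm, fun F hF => ?_⟩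
  · obtain ⟨x, hx⟩ := h.reg a.unop
    exact ⟨MulOpposite.op x, unop_injective (by simpa [mul_assoc] using hx)⟩
  · exact unop_injective (by simpa using h.idem)
  · obtain ⟨I, g, h1, h2, h3⟩ := h.ex (F.image unop) (by simpa using hF)
    refine ⟨I.op, MulOpposite.op g, fun r hr => ?_, by simpa using h2, fun c hc => ?_⟩
    · simpa using h1 _ (Finset.mem_image_of_mem _ hr)
    · obtain ⟨u, w, h⟩ := h3 _ hc
      exact ⟨MulOpposite.op w, MulOpposite.op u, unop_injective (by simpa [mul_assoc] using h)⟩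

lemma Hyp.exists_mod {P : A → Prop} {e : A} (h : Hyp A P e) (F : Finset A) (hF : ∀ r ∈ F, P r) :
    ∃ (E : Type) (_ : AddCommGroup E) (_ : Module A E) (s : E), Module.Injective A E ∧ s ≠ 0 ∧
      (∀ x : E, x ≠ 0 → ∃ r : A, r • x = s) ∧ (∀ r ∈ F, ∀ x : E, r • x = 0) ∧
      ∀ c : A, (∀ x : E, c • x = 0) → P c := by
  obtain ⟨I, g, h1, h2, h3⟩ := h.ex F hF
  obtain ⟨y, hy⟩ := h.reg g
  obtain ⟨L, hL, hL'⟩ := Ideal.exists_le_maximal (I.asIdeal ⊔ Ideal.span {1 - y * g}) (by
    intro ht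
    obtain ⟨i, hi, z, hz, hiz⟩ := Submodule.mem_sup.1 ((Ideal.eq_top_iff_one _).1 ht)
    obtain ⟨a, rfl⟩ := Ideal.mem_span_singleton'.1 hz
    apply h2
    have : g = g * i * (y * g) := by
      have h4 : (1 - y * g) * (y * g) = 0 := by
        rw [sub_mul, one_mul, mul_assoc, ← mul_assoc g, hy, sub_self]
      rw [eq_sub_of_add_eq hiz, mul_assoc g, sub_mul, mul_assoc a, h4, mul_zero, sub_zero, one_mul,
        ← mul_assoc, hy]
    rw [this]
    exact I.mul_mem_right _ _ (I.mul_mem_left _ _ (TwoSidedIdeal.mem_asIdeal.1 hi)))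
  obtain ⟨E, _, _, s, e1, e2, e3, e4⟩ := exists_hull L hL
  refine ⟨E, inferInstance, inferInstance, s, e1, e2, e4, fun r hr x => ?_, fun c hc => ?_⟩
  · by_contra hx
    obtain ⟨t, ht⟩ := e4 _ hx
    obtain ⟨z, hz⟩ := h.reg (t * r)
    apply e2
    rw [← e3 (t * r * z) (hL' (Submodule.mem_sup_left (TwoSidedIdeal.mem_asIdeal.2
      (I.mul_mem_right _ _ (I.mul_mem_left _ _ (h1 r hr)))))), ← ht, smul_smul, smul_smul, hz]
  · by_contra hP
    obtain ⟨u, w, rfl⟩ := h3 c hP
    apply e2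
    have := e3 _ (hL' (Submodule.mem_sup_right (Ideal.mem_span_singleton_self _)))
    simpa [sub_smul, mul_smul, hc] using this

end Pool.Agent.H.MP_9f28a9_al
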