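import Pool.Agent.H.MP_9f28a9_al.A

namespace Pool.Agent.H.MP_9f28a9_al

open Cardinal

lemma factor {V : Type} [AddCommGroup V] [Module ℚ V] (g a : Module.End ℚ V)
    (h : LinearMap.rank g ≤ LinearMap.rank a) : ∃ u w : Module.End ℚ V, g = u * a * w := by
  obtain ⟨j, hj⟩ := _root_.rank_le_iff_exists_linearMap.1 h
  obtain ⟨s, hs⟩ := (LinearMap.rangeRestrict a).exists_rightInverse_of_surjective
    (LinearMap.range_rangeRestrict a)
  obtain ⟨u, hu⟩ := ((LinearMap.range a).subtype ∘ₗ j).exists_leftInverse_of_injective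
    (LinearMap.ker_eq_bot.2 ((LinearMap.range a).injective_subtype.comp hj))
  refine ⟨(LinearMap.range g).subtype ∘ₗ u, s ∘ₗ j ∘ₗ g.rangeRestrict, LinearMap.ext fun x => ?_⟩
  have h1 := congrArg Subtype.val (LinearMap.congr_fun hs (j (g.rangeRestrict x)))
  have h2 := congrArg Subtype.val (LinearMap.congr_fun hu (g.rangeRestrict x))
  simp only [LinearMap.comp_apply, LinearMap.id_apply, Submodule.subtype_apply,
    LinearMap.codRestrict_apply, LinearMap.rangeRestrict] at h1 h2
  simp only [Module.End.mul_apply, LinearMap.comp_apply, Submodule.subtype_apply,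
    LinearMap.rangeRestrict]
  rw [h1, h2]

lemma end_reg {V : Type} [AddCommGroup V] [Module ℚ V] (a : Module.End ℚ V) :
    ∃ x, a * x * a = a := by
  obtain ⟨s, hs⟩ := (LinearMap.rangeRestrict a).exists_rightInverse_of_surjective
    (LinearMap.range_rangeRestrict a)
  obtain ⟨u, hu⟩ := (LinearMap.range a).subtype.exists_leftInverse_of_injective
    (Submodule.ker_subtype _)
  refine ⟨s ∘ₗ u, LinearMap.ext fun x => ?_⟩
  have h1 := congrArg Subtype.val (LinearMap.congr_fun hs (a.rangeRestrict x))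
  have h2 := LinearMap.congr_fun hu (a.rangeRestrict x)
  simp only [LinearMap.comp_apply, LinearMap.id_apply, Submodule.subtype_apply,
    LinearMap.codRestrict_apply, LinearMap.rangeRestrict] at h1 h2
  simp only [Module.End.mul_apply, LinearMap.comp_apply]
  rw [h2, h1]

/-- Endomorphisms of rank less than an infinite cardinal. -/
def small (V : Type) [AddCommGroup V] [Module ℚ V] (c : Cardinal.{0}) (hc : ℵ₀ ≤ c) :
    TwoSidedIdeal (Module.End ℚ V) :=
  TwoSidedIdeal.mk' {f | LinearMap.rank f < c} (by simpa using aleph0_pos.trans_le hc)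
    (fun {f g} hf hg => (LinearMap.rank_add_le f g).trans_lt (add_lt_of_lt hc hf hg))
    (fun {f} hf => by
      have : LinearMap.range (-f) = LinearMap.range f := LinearMap.range_neg f
      simp only [Set.mem_setOf_eq, LinearMap.rank] at hf ⊢
      rw [this]
      exact hf)
    (fun {f g} hg => (LinearMap.rank_comp_le_right g f).trans_lt hg)
    (fun {f g} hf => (LinearMap.rank_comp_le_left g f).trans_lt hf)

lemma mem_small {V : Type} [AddCommGroup V] [Module ℚ V] {c : Cardinal.{0}} {hc : ℵ₀ ≤ c}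
    {f : Module.End ℚ V} : f ∈ small V c hc ↔ LinearMap.rank f < c :=
  TwoSidedIdeal.mem_mk' _ _ _ _ _ _ _

/-- The elements commuting with `e` modulo an ideal. -/
def cent {E : Type} [Ring E] (J : TwoSidedIdeal E) (e : E) : Subring E where
  carrier := {f | e * f - f * e ∈ J}
  mul_mem' {f g} hf hg := by
    have : e * (f * g) - f * g * e = (e * f - f * e) * g + f * (e * g - g * e) := by noncomm_ring
    simp only [Set.mem_setOf_eq, this]
    exact J.add_mem (J.mul_mem_right _ _ hf) (J.mul_mem_left _ _ hg)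
  one_mem' := by simp
  add_mem' {f g} hf hg := by
    have : e * (f + g) - (f + g) * e = (e * f - f * e) + (e * g - g * e) := by noncomm_ring
    simp only [Set.mem_setOf_eq, this]
    exact J.add_mem hf hg
  zero_mem' := by simp
  neg_mem' {f} hf := by
    have : e * (-f) - (-f) * e = -(e * f - f * e) := by noncomm_ring
    simp only [Set.mem_setOf_eq, this]
    exact J.neg_mem hf

lemma mem_cent_of_mem {E : Type} [Ring E] {J : TwoSidedIdeal E} (e : E) {f : E} (h : f ∈ J) :
    f ∈ cent J e := J.sub_mem (J.mul_mem_left _ _ h) (J.mul_mem_right _ _ h)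

lemma cent_reg {E : Type} [Ring E] (reg : ∀ a : E, ∃ x, a * x * a = a) (J : TwoSidedIdeal E)
    (e : E) (he : e * e = e) (f : cent J e) : ∃ x, f * x * f = f := by
  obtain ⟨f, hf⟩ := f
  have hf' : e * f - f * e ∈ J := hf
  have he1 : ∀ z, e * (e * z) = e * z := fun z => by rw [← mul_assoc, he]
  set d := e * f * e + (1 - e) * f * (1 - e) with hd
  obtain ⟨x0, hx0⟩ := reg d
  set x := e * x0 * e + (1 - e) * x0 * (1 - e) with hx
  have h1 : e * d = d * e := by
    simp only [hd, mul_add, add_mul, mul_sub, sub_mul, mul_one, one_mul, mul_assoc, he, he1]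
    abel
  have h2 : d * x * d = d := by
    have h3 : d * x * d = e * (d * x0 * d) * e + (1 - e) * (d * x0 * d) * (1 - e) := by
      have h4 : ∀ z, d * (e * z) = e * (d * z) := fun z => by rw [← mul_assoc, ← h1, mul_assoc]
      simp only [hx, mul_add, add_mul, mul_sub, sub_mul, mul_one, one_mul, mul_assoc, h4, ← h1]
    rw [h3, hx0]
    simp only [mul_sub, sub_mul, mul_one, one_mul, mul_assoc, ← h1, he1]
    abel
  have h5 : f - d ∈ J := by
    have : f - d = (e * f - f * e) * (1 - e) - (e * f - f * e) * e := by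
      simp only [hd, mul_add, add_mul, mul_sub, sub_mul, mul_one, one_mul, mul_assoc, he, he1]
      abel
    rw [this]
    exact J.sub_mem (J.mul_mem_right _ _ hf') (J.mul_mem_right _ _ hf')
  have h6 : f - f * x * f ∈ J := by
    have : f - f * x * f = (f - d) - ((f - d) * x * f + d * x * (f - d)) + (d - d * x * d) := by
      noncomm_ring
    rw [this, h2, sub_self, add_zero]
    exact J.sub_mem h5 (J.add_mem (J.mul_mem_right _ _ (J.mul_mem_right _ _ h5))
      (J.mul_mem_left _ _ h5))
  have h7 : x ∈ cent J e := by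
    have : e * x - x * e = 0 := by
      simp only [hx, mul_add, add_mul, mul_sub, sub_mul, mul_one, one_mul, mul_assoc, he, he1]
      abel
    change e * x - x * e ∈ J
    rw [this]
    exact J.zero_mem
  obtain ⟨y, hy⟩ := reg (f - f * x * f)
  refine ⟨⟨x + (1 - x * f) * (y * (f - f * x * f) * y) * (1 - f * x), (cent J e).add_mem h7
    (mem_cent_of_mem e (J.mul_mem_right _ _ (J.mul_mem_left _ _ (J.mul_mem_right _ _
      (J.mul_mem_left _ _ h6)))))⟩, Subtype.ext ?_⟩
  change f * (x + (1 - x * f) * (y * (f - f * x * f) * y) * (1 - f * x)) * f = f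
  have : f * (x + (1 - x * f) * (y * (f - f * x * f) * y) * (1 - f * x)) * f = f * x * f +
      (f - f * x * f) * y * (f - f * x * f) * y * (f - f * x * f) := by noncomm_ring
  rw [this, hy, hy]
  abel

lemma exists_space (c : Cardinal.{0}) :
    ∃ (U : Type) (_ : AddCommGroup U) (_ : Module ℚ U), Module.rank ℚ U = c :=
  ⟨c.out →₀ ℚ, inferInstance, inferInstance, by simp⟩

theorem exists_ring : ∃ (R : Type) (_ : Ring R) (P : R → Prop) (e : R), Hyp R P e := by
  obtain ⟨κ, hκ, hκ0⟩ : ∃ κ : Cardinal.{0}, IsStrongLimit κ ∧ ℵ₀ < κ :=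
    ⟨ℶ_ Ordinal.omega0, isStrongLimit_beth.2 Ordinal.isSuccLimit_omega0.isSuccPrelimit, by
      rw [← beth_zero]
      exact beth_lt_beth.2 Ordinal.omega0_pos⟩
  obtain ⟨U, _, _, hU⟩ := exists_space κ
  let e : Module.End ℚ (U × U) := LinearMap.inl ℚ U U ∘ₗ LinearMap.fst ℚ U U
  have he : e * e = e := LinearMap.ext fun x => rfl
  have h1 : κ ≤ LinearMap.rank e := by
    refine hU.ge.trans ?_
    exact LinearMap.rank_le_of_injective (e.rangeRestrict ∘ₗ LinearMap.inl ℚ U U)
      fun x y h => congrArg (fun z => z.1.1) h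
  have h2 : κ ≤ LinearMap.rank (1 - e) := by
    refine hU.ge.trans ?_
    exact LinearMap.rank_le_of_injective ((1 - e).rangeRestrict ∘ₗ LinearMap.inr ℚ U U)
      fun x y h => by simpa [e] using congrArg (fun z => z.1.2) h
  let J := small (U × U) κ hκ0.le
  refine ⟨cent J e, inferInstance, fun f => f.1 ∈ J, ⟨e, by simp [cent]⟩, cent_reg end_reg J e he,
    Subtype.ext he, fun h => (mem_small.1 h).not_ge h1, fun h => (mem_small.1 h).not_ge h2,
    fun a => ⟨a.2, by simpa using J.neg_mem a.2⟩, fun F hF => ?_⟩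
  let μ : Cardinal.{0} := Order.succ (max ℵ₀ (F.sup fun f => LinearMap.rank f.1))
  have hμ : μ < κ := hκ.isSuccLimit.succ_lt (max_lt hκ0
    ((Finset.sup_lt_iff (aleph0_pos.trans hκ0)).2 fun f hf => mem_small.1 (hF f hf)))
  have hμ0 : ℵ₀ ≤ μ := (le_max_left _ _).trans (Order.le_succ _)
  obtain ⟨W, _, _, hW⟩ := exists_space μ
  obtain ⟨j, hj⟩ := _root_.rank_le_iff_exists_linearMap.1
    (hW.trans_le (hμ.le.trans (h1.trans (LinearMap.rank_le_domain e))))
  obtain ⟨q, hq⟩ := j.exists_leftInverse_of_injective (LinearMap.ker_eq_bot.2 hj)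
  have hg : LinearMap.rank (j ∘ₗ q) = μ := by
    rw [LinearMap.rank, LinearMap.range_comp_of_range_eq_top j
      (LinearMap.range_eq_top.2 fun x => ⟨j x, LinearMap.congr_fun hq x⟩),
      rank_range_of_injective j hj, hW]
  have hgJ : j ∘ₗ q ∈ J := mem_small.2 (hg.trans_lt hμ)
  refine ⟨(small (U × U) μ hμ0).comap (cent J e).subtype, ⟨j ∘ₗ q, mem_cent_of_mem e hgJ⟩,
    fun r hr => ?_, fun h => ?_, fun c hc => ?_⟩
  · rw [TwoSidedIdeal.mem_comap]
    exact mem_small.2 (Order.lt_succ_of_le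
      ((Finset.le_sup (f := fun f : cent J e => LinearMap.rank f.1) hr).trans (le_max_right _ _)))
  · rw [TwoSidedIdeal.mem_comap] at h
    exact (mem_small.1 h).ne hg
  · obtain ⟨u, w, h⟩ := factor (j ∘ₗ q) c.1
      (hg.trans_le (hμ.le.trans (not_lt.1 fun h => hc (mem_small.2 h))))
    have h3 : (j ∘ₗ q : Module.End ℚ (U × U)) * (j ∘ₗ q) = j ∘ₗ q :=
      LinearMap.ext fun x => congrArg j (LinearMap.congr_fun hq (q x))
    refine ⟨⟨(j ∘ₗ q) * u, mem_cent_of_mem e (J.mul_mem_right _ _ hgJ)⟩,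
      ⟨w * (j ∘ₗ q), mem_cent_of_mem e (J.mul_mem_left _ _ hgJ)⟩, Subtype.ext ?_⟩
    change j ∘ₗ q = (j ∘ₗ q) * u * c.1 * (w * (j ∘ₗ q))
    rw [mul_assoc _ u, ← mul_assoc _ w, mul_assoc _ _ w, ← h, h3, h3]

end Pool.Agent.H.MP_9f28a9_al
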